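import Mathlib

/-!
# Optimal colourings of `K_n` without a rainbow cycle of length `n - 2`

For `k ≥ 3` colour the edge `xy` of the complete graph on `(ℤ/2)^k` with `x + y`. The sum of the
colours along a cycle is `0`, the sum of all `2^k - 1` colours is `0` too, so a rainbow cycle cannot
miss exactly one colour. If a vertex is deleted it cannot miss exactly two colours.
-/

set_option autoImplicit false

namespace Pool.Agent.Results.MP_4bc86c_co.NoRainbowCycle

open Finset

/-- `c` is a proper edge colouring of the complete graph on `V`: edges that share a vertex get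
different colours. (The values on the diagonal of `Sym2 V` play no role.) -/
def IsProper {V : Type} (c : Sym2 V → ℕ) : Prop :=
  ∀ x y z : V, x ≠ y → x ≠ z → y ≠ z → c s(x, y) ≠ c s(x, z)

/-- The number of colours that `c` uses on the edges of the complete graph on `V`. -/
noncomputable def numColours {V : Type} (c : Sym2 V → ℕ) : ℕ :=
  (c '' (⊤ : SimpleGraph V).edgeSet).ncard

/-- `c` is an optimal edge colouring of the complete graph on `V`: it is proper, and no proper
edge colouring uses fewer colours. -/
def IsOptimal {V : Type} (c : Sym2 V → ℕ) : Prop :=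
  IsProper c ∧ ∀ c' : Sym2 V → ℕ, IsProper c' → numColours c ≤ numColours c'

/-- The complete graph on `V` has, under `c`, a rainbow cycle of length `m`. -/
def HasRainbowCycle {V : Type} (c : Sym2 V → ℕ) (m : ℕ) : Prop :=
  ∃ (v : V) (p : (⊤ : SimpleGraph V).Walk v v), p.IsCycle ∧ p.length = m ∧ (p.edges.map c).Nodup

section

variable {V : Type} [Fintype V]

lemma numColours_ge_deg (c : Sym2 V → ℕ) (hc : IsProper c) (x : V) :
    Fintype.card V - 1 ≤ numColours c := by
  classical
  have h1 : ((univ.erase x).image fun y => c s(x, y)).card = Fintype.card V - 1 := by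
    rw [card_image_of_injOn, card_erase_of_mem (mem_univ x), card_univ]
    intro y hy z hz h
    by_contra hyz
    simp only [coe_erase, coe_univ, Set.mem_sdiff, Set.mem_univ, Set.mem_singleton_iff,
      true_and] at hy hz
    exact hc x y z (Ne.symm hy) (Ne.symm hz) hyz h
  rw [← h1, numColours, ← Set.ncard_coe_finset]
  apply Set.ncard_le_ncard _ (Set.toFinite _)
  intro i hi
  simp only [coe_image, coe_erase, coe_univ, Set.mem_image, Set.mem_sdiff, Set.mem_univ,
    Set.mem_singleton_iff, true_and] at hi
  obtain ⟨y, hy, rfl⟩ := hi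
  exact ⟨s(x, y), by simpa using Ne.symm hy, rfl⟩

lemma numColours_ge_odd (c : Sym2 V → ℕ) (hc : IsProper c) (hodd : Odd (Fintype.card V))
    (h3 : 3 ≤ Fintype.card V) : Fintype.card V ≤ numColours c := by
  classical
  by_contra hlt
  push Not at hlt
  set C : Set ℕ := c '' (⊤ : SimpleGraph V).edgeSet with hC
  have hfin : C.Finite := Set.toFinite _
  have himg : ∀ x : V, (((univ.erase x).image fun y => c s(x, y) : Finset ℕ) : Set ℕ) = C := by
    intro x
    apply Set.eq_of_subset_of_ncard_le _ _ hfin
    · intro i hi
      simp only [coe_image, coe_erase, coe_univ, Set.mem_image, Set.mem_sdiff, Set.mem_univ,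
        Set.mem_singleton_iff, true_and] at hi
      obtain ⟨y, hy, rfl⟩ := hi
      exact ⟨s(x, y), by simpa using Ne.symm hy, rfl⟩
    · rw [Set.ncard_coe_finset, card_image_of_injOn, card_erase_of_mem (mem_univ x), card_univ]
      · have : numColours c = C.ncard := rfl
        omega
      · intro y hy z hz h
        by_contra hyz
        simp only [coe_erase, coe_univ, Set.mem_sdiff, Set.mem_univ, Set.mem_singleton_iff,
          true_and] at hy hz
        exact hc x y z (Ne.symm hy) (Ne.symm hz) hyz h
  obtain ⟨x0, x1, hx⟩ := Fintype.exists_pair_of_one_lt_card (α := V) (by omega)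
  set i := c s(x0, x1) with hi
  have hiC : i ∈ C := ⟨s(x0, x1), by simpa using hx, rfl⟩
  have hex : ∀ x : V, ∃ y, y ≠ x ∧ c s(x, y) = i := by
    intro x
    rw [← himg x] at hiC
    simpa using hiC
  choose g hg1 hg2 using hex
  have hgg : ∀ x, g (g x) = x := by
    intro x
    by_contra h
    refine hc (g x) (g (g x)) x (hg1 _).symm (hg1 x) h ?_
    rw [hg2 (g x), Sym2.eq_swap, hg2 x]
  have h2 : ∑ _x : V, (1 : ZMod 2) = 0 := by
    refine Finset.sum_involution (fun x _ => g x) ?_ ?_ ?_ ?_
    · intro x _; decide
    · intro x _ _; exact hg1 x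
    · intro x _; exact mem_univ _
    · intro x _; exact hgg x
  rw [sum_const, card_univ, nsmul_eq_mul, mul_one, ZMod.natCast_eq_zero_iff] at h2
  exact (Nat.not_even_iff_odd.2 hodd) (even_iff_two_dvd.2 h2)

end

/-! ### The colourings -/

section

variable {k : ℕ}

/-- a numbering of the vectors -/
noncomputable def enc (k : ℕ) : (Fin k → ZMod 2) → ℕ := fun x => (Fintype.equivFin _ x : ℕ)

lemma enc_inj : Function.Injective (enc k) := fun x y h =>
  (Fintype.equivFin _).injective (Fin.ext h)

lemma add_self' (x : Fin k → ZMod 2) : x + x = 0 := funext fun i => CharTwo.add_self_eq_zero (x i)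

/-- the sum of the two ends of an edge -/
def esum {V : Type} (φ : V → (Fin k → ZMod 2)) : Sym2 V → (Fin k → ZMod 2) :=
  Sym2.lift ⟨fun x y => φ x + φ y, fun x y => add_comm _ _⟩

lemma esum_mk {V : Type} (φ : V → (Fin k → ZMod 2)) (x y : V) : esum φ s(x, y) = φ x + φ y := rfl

lemma walk_sum {V : Type} (φ : V → (Fin k → ZMod 2)) {u v : V} (p : (⊤ : SimpleGraph V).Walk u v) :
    (p.edges.map (esum φ)).sum = φ u + φ v := by
  induction p with
  | nil => simp [add_self']
  | cons h q ih =>
    rename_i a b d
    rw [SimpleGraph.Walk.edges_cons, List.map_cons, List.sum_cons, ih, esum_mk]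
    rw [show φ a + φ b + (φ b + φ d) = φ a + φ d + (φ b + φ b) by abel, add_self', add_zero]

/-- the sum of all vectors is zero -/
lemma sum_all (hk : 2 ≤ k) : ∑ x : Fin k → ZMod 2, x = 0 := by
  funext i
  rw [Finset.sum_apply]
  -- pair `x` with `x + e_j`, `j ≠ i`
  obtain ⟨j, hj⟩ : ∃ j : Fin k, j ≠ i := by
    have : Nontrivial (Fin k) := Fin.nontrivial_iff_two_le.2 hk
    exact exists_ne i
  refine Finset.sum_involution (fun x _ => x + Pi.single j 1) ?_ ?_ ?_ ?_
  · intro x _
    simp only [Pi.add_apply, Pi.single_apply, if_neg hj.symm, add_zero]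
    exact CharTwo.add_self_eq_zero _
  · intro x _ _ h
    have := congrFun h j
    simp at this
  · intro x _; exact mem_univ _
  · intro x _
    rw [add_assoc, ← Pi.single_add]
    have : (1 : ZMod 2) + 1 = 0 := by decide
    rw [this, Pi.single_zero, add_zero]

/-- `r` distinct non-zero vectors with sum zero: their number is not `2^k - 2` and not `2^k - 3`. -/
lemma card_ne (hk : 2 ≤ k) (S : Finset (Fin k → ZMod 2)) (h0 : (0 : Fin k → ZMod 2) ∉ S)
    (hS : ∑ x ∈ S, x = 0) : S.card ≠ 2 ^ k - 2 ∧ S.card ≠ 2 ^ k - 3 := by
  classical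
  have hcard : Fintype.card (Fin k → ZMod 2) = 2 ^ k := by simp [ZMod.card]
  have h4 : 4 ≤ 2 ^ k := by
    calc 4 = 2 ^ 2 := by norm_num
      _ ≤ 2 ^ k := Nat.pow_le_pow_right (by norm_num) hk
  set T := Sᶜ.erase 0 with hT
  have h0' : (0 : Fin k → ZMod 2) ∈ Sᶜ := mem_compl.2 h0
  have hTcard : T.card = 2 ^ k - S.card - 1 := by
    rw [hT, card_erase_of_mem h0', card_compl, hcard]
  have hTsum : ∑ x ∈ T, x = 0 := by
    have h1 := Finset.sum_add_sum_compl S (fun x => x)
    rw [sum_all hk, hS, zero_add, ← Finset.add_sum_erase _ _ h0', zero_add] at h1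
    exact h1
  have hle : S.card ≤ 2 ^ k := by
    rw [← hcard]; exact card_le_univ S
  constructor
  · intro h
    have h1 : T.card = 1 := by omega
    obtain ⟨a, ha⟩ := card_eq_one.1 h1
    rw [ha, sum_singleton] at hTsum
    have : a ∈ T := by rw [ha]; exact mem_singleton_self a
    rw [hTsum] at this
    exact (notMem_erase _ _ this)
  · intro h
    have h1 : T.card = 2 := by omega
    obtain ⟨a, b, hab, ha⟩ := card_eq_two.1 h1
    rw [ha, sum_pair hab] at hTsum
    apply hab
    have : a + b + b = b := by rw [hTsum, zero_add]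
    rwa [add_assoc, add_self', add_zero] at this

end

/-- **No rainbow cycle of length `n - 2`.** For every `k ≥ 3` and `n = 2^k` or `n = 2^k - 1` some
optimal edge colouring of the complete graph on `n` vertices has no rainbow cycle of length `n - 2`. -/
theorem result : ∀ k : ℕ, 3 ≤ k → ∀ n : ℕ, (n = 2 ^ k ∨ n = 2 ^ k - 1) →
    ∃ c : Sym2 (Fin n) → ℕ, IsOptimal c ∧ ¬ HasRainbowCycle c (n - 2) := by
  classical
  intro k hk n hn
  have hcard : Fintype.card (Fin k → ZMod 2) = 2 ^ k := by simp [ZMod.card]
  have h8 : 8 ≤ 2 ^ k := by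
    calc 8 = 2 ^ 3 := by norm_num
      _ ≤ 2 ^ k := Nat.pow_le_pow_right (by norm_num) hk
  -- an injection of the vertices into the vectors
  obtain ⟨φ, hφ⟩ : ∃ φ : Fin n → (Fin k → ZMod 2), Function.Injective φ := by
    have : Nonempty (Fin n ↪ (Fin k → ZMod 2)) := by
      apply Function.Embedding.nonempty_of_card_le
      rw [hcard, Fintype.card_fin]
      omega
    exact ⟨this.some, this.some.injective⟩
  set c : Sym2 (Fin n) → ℕ := fun e => enc k (esum φ e) with hc
  have hproper : IsProper c := by
    intro x y z _ _ hyz h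
    apply hyz
    apply hφ
    have := enc_inj h
    rw [esum_mk, esum_mk] at this
    exact add_left_cancel this
  have hnum : numColours c ≤ 2 ^ k - 1 := by
    have hsub : c '' (⊤ : SimpleGraph (Fin n)).edgeSet ⊆
        ((univ.erase (0 : Fin k → ZMod 2)).image (enc k) : Finset ℕ) := by
      rintro i ⟨e, he, rfl⟩
      induction e using Sym2.ind with
      | _ x y =>
        simp only [coe_image, coe_erase, coe_univ, Set.mem_image, Set.mem_sdiff, Set.mem_univ,
          Set.mem_singleton_iff, true_and]
        refine ⟨esum φ s(x, y), ?_, rfl⟩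
        rw [esum_mk]
        intro h
        have hxy : x ≠ y := by simpa using he
        apply hxy
        apply hφ
        have : φ x + φ y + φ y = φ y := by rw [h, zero_add]
        rwa [add_assoc, add_self', add_zero] at this
    calc numColours c ≤ _ := Set.ncard_le_ncard hsub (Set.toFinite _)
      _ = ((univ.erase (0 : Fin k → ZMod 2)).image (enc k)).card := Set.ncard_coe_finset _
      _ ≤ (univ.erase (0 : Fin k → ZMod 2)).card := card_image_le
      _ = 2 ^ k - 1 := by rw [card_erase_of_mem (mem_univ _), card_univ, hcard]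
  refine ⟨c, ⟨hproper, fun c' hc' => hnum.trans ?_⟩, ?_⟩
  · rcases hn with rfl | rfl
    · have := numColours_ge_deg c' hc' ⟨0, by omega⟩
      rwa [Fintype.card_fin] at this
    · have := numColours_ge_odd c' hc' (by
        rw [Fintype.card_fin]
        have he : Even (2 ^ k) := Nat.even_pow.2 ⟨even_two, by omega⟩
        obtain ⟨m, hm⟩ := he
        exact ⟨m - 1, by omega⟩) (by rw [Fintype.card_fin]; omega)
      rwa [Fintype.card_fin] at this
  · rintro ⟨v, p, -, hlen, hnd⟩
    have hmap : p.edges.map c = (p.edges.map (esum φ)).map (enc k) := by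
      rw [List.map_map]; rfl
    rw [hmap] at hnd
    have hnd' := List.Nodup.of_map _ hnd
    set S : Finset (Fin k → ZMod 2) := (p.edges.map (esum φ)).toFinset with hS
    have hScard : S.card = n - 2 := by
      rw [hS, List.toFinset_card_of_nodup hnd', List.length_map, SimpleGraph.Walk.length_edges, hlen]
    have hSsum : ∑ x ∈ S, x = 0 := by
      have h1 : ∑ x ∈ S, x = (p.edges.map (esum φ)).sum := by
        rw [hS, List.sum_toFinset _ hnd', List.map_id']
      rw [h1, walk_sum, add_self']
    have hS0 : (0 : Fin k → ZMod 2) ∉ S := by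
      intro h
      rw [hS, List.mem_toFinset, List.mem_map] at h
      obtain ⟨e, he, h⟩ := h
      have he' := SimpleGraph.Walk.edges_subset_edgeSet p he
      induction e using Sym2.ind with
      | _ x y =>
        rw [esum_mk] at h
        have hxy : x ≠ y := by simpa using he'
        apply hxy
        apply hφ
        have : φ x + φ y + φ y = φ y := by rw [h, zero_add]
        rwa [add_assoc, add_self', add_zero] at this
    obtain ⟨h1, h2⟩ := card_ne (by omega) S hS0 hSsum
    rcases hn with rfl | rfl
    · exact h1 hScard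
    · exact h2 (by omega)

end Pool.Agent.Results.MP_4bc86c_co.NoRainbowCycle
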